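import Pool.Agent.H26.AR3

set_option autoImplicit false

namespace Pool.Agent.Results.MP_646863_pr.LiouvilleNotAR

open MeasureTheory Finset LaurentPolynomial Pool.Agent.H26.AR

def ARpair {G : Type} [Group G] (μ : PMF G) : Prop :=
  letI : MeasurableSpace G := ⊤
  ∀ n, 1 ≤ n → ∀ᵐ ζ ∂(Measure.infinitePi fun _ : ℕ => μ.toMeasure),
    Subsemigroup.closure (Set.range fun k => ((List.range (n + k)).map ζ).prod) = ⊤

def AR (G : Type) [Group G] : Prop :=
  ∀ μ : PMF G, (∀ g, μ g⁻¹ = μ g) → Subgroup.closure μ.support = ⊤ → ARpair μ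

def Liouville {G : Type} [Group G] (S : Finset G) : Prop :=
  ∀ f : G → ℝ, (∃ R, ∀ g, |f g| ≤ R) →
    (∀ g, f g = (1 / (S.card : ℝ)) * ∑ s ∈ S, f (g * s)) → ∀ x y, f x = f y

lemma convex_const (F : ℤ → ℝ) (R : ℝ) (hR : ∀ z, F z ≤ R)
    (h : ∀ z, 2 * F z ≤ F (z + 1) + F (z - 1)) (z : ℤ) : F z = F 0 := by
  have key : ∀ F : ℤ → ℝ, (∀ z, F z ≤ R) → (∀ z, 2 * F z ≤ F (z + 1) + F (z - 1)) →
      ∀ z, F (z + 1) ≤ F z := by
    intro F hR h z
    by_contra hc
    push Not at hc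
    have h1 : ∀ n : ℕ, F (z + 1) - F z ≤ F (z + n + 1) - F (z + n) ∧
        F z + n * (F (z + 1) - F z) ≤ F (z + n) := by
      intro n
      induction n with
      | zero => simp
      | succ n ih =>
        have := h (z + n + 1)
        push_cast
        rw [add_sub_cancel_right] at this
        rw [← add_assoc]
        constructor <;> linarith [ih.1, ih.2]
    obtain ⟨n, hn⟩ := exists_nat_gt ((R - F z) / (F (z + 1) - F z))
    rw [div_lt_iff₀ (by linarith)] at hn
    linarith [(h1 n).2, hR (z + n)]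
  have h1 := key F hR h
  have h2 := key (fun z => F (-z)) (fun z => hR _) fun z => by
    have := h (-z)
    rw [show -(z + 1) = -z - 1 by ring, show -(z - 1) = -z + 1 by ring]
    linarith
  have h3 : ∀ z, F (z + 1) = F z := fun z => le_antisymm (h1 z) (by simpa using h2 (-(z + 1)))
  induction z using Int.induction_on with
  | zero => rfl
  | succ n ih => rw [h3, ih]
  | pred n ih => rw [← h3, sub_add_cancel, ih]

lemma liou (f : W → ℝ) (R : ℝ) (hR : ∀ g, |f g| ≤ R)
    (hf : ∀ g, 4 * f g = f (g * wt) + f (g * wt⁻¹) + f (g * wa) + f (g * wa⁻¹)) (x y : W) :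
    f x = f y := by
  have key : ∀ u : W, u.z = 0 → ∀ g, f (u * g) ≤ f g := by
    intro u hu
    let D : W → ℝ := fun g => f (u * g) - f g
    have hD : ∀ g, 4 * D g = D (g * wt) + D (g * wt⁻¹) + D (g * wa) + D (g * wa⁻¹) := fun g => by
      simp only [D, ← mul_assoc]
      linarith [hf g, hf (u * g)]
    have hb : ∀ g, D g ≤ 2 * R := fun g => by
      have := abs_le.mp (hR g)
      have := abs_le.mp (hR (u * g))
      simp only [D]
      linarith
    let F : ℤ → ℝ := fun z => ⨆ p, D ⟨p, z⟩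
    have hF : ∀ g : W, D g ≤ F g.z := fun g =>
      le_ciSup (f := fun p => D ⟨p, g.z⟩) ⟨2 * R, by rintro _ ⟨p, rfl⟩; exact hb _⟩ g.f
    have hF0 := convex_const F (2 * R) (fun z => ciSup_le fun p => hb _) fun z => by
      have : F z ≤ (F (z + 1) + F (z - 1) + 2 * F z) / 4 := ciSup_le fun p => by
        have h0 := hD ⟨p, z⟩
        have h1 := hF (⟨p, z⟩ * wt)
        have h2 := hF (⟨p, z⟩ * wt⁻¹)
        have h3 := hF (⟨p, z⟩ * wa)
        have h4 := hF (⟨p, z⟩ * wa⁻¹)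
        simp only [mul_z, inv_z, wt, wa, neg_zero, add_zero, ← sub_eq_add_neg] at h1 h2 h3 h4
        simp only [wt, wa] at h0
        linarith
      linarith
    have hle : ∀ g, D g ≤ F 0 := fun g => hF0 g.z ▸ hF g
    let A : Subgroup W :=
      { carrier := {w | ∃ C, 1 ≤ C ∧ ∀ g, F 0 - D (g * w) ≤ C * (F 0 - D g) ∧
          F 0 - D (g * w⁻¹) ≤ C * (F 0 - D g)}
        mul_mem' := by
          rintro a b ⟨C, hC, h1⟩ ⟨E, hE, h2⟩
          refine ⟨C * E, one_le_mul_of_one_le_of_one_le hC hE, fun g => ?_⟩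
          rw [mul_inv_rev, ← mul_assoc, ← mul_assoc]
          constructor
          · nlinarith [(h2 (g * a)).1, (h1 g).1]
          · nlinarith [(h1 (g * b⁻¹)).2, (h2 g).2]
        one_mem' := ⟨1, le_rfl, by simp⟩
        inv_mem' := by
          rintro a ⟨C, hC, h1⟩
          exact ⟨C, hC, fun g => ⟨(h1 g).2, by rw [inv_inv]; exact (h1 g).1⟩⟩ }
    have hA : A = ⊤ := by
      refine gen_W A ⟨4, by norm_num, fun g => ?_⟩ ⟨4, by norm_num, fun g => ?_⟩ <;>
        constructor <;>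
        linarith [hD g, hle (g * wt), hle (g * wt⁻¹), hle (g * wa), hle (g * wa⁻¹)]
    obtain ⟨C, hC, h1⟩ : u ∈ A := hA ▸ trivial
    have hm : F 0 ≤ 0 := tele f R hR u (F 0) C hC (fun g => (h1 g).1) fun ε hε => by
      obtain ⟨p, hp⟩ := exists_lt_of_lt_ciSup (show F 0 - ε < F 0 by linarith)
      exact ⟨⟨p, 0⟩, W.ext (by simp [hu, add_comm]) (by simp), by simp only [D] at hp; linarith⟩
    intro g
    have := hle g
    simp only [D] at this
    linarith
  have k2 : ∀ g : W, f g = f ⟨0, g.z⟩ := by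
    intro g
    have h1 := key ⟨g.f, 0⟩ rfl ⟨0, g.z⟩
    have h2 := key ⟨-g.f, 0⟩ rfl g
    rw [show (⟨g.f, 0⟩ : W) * ⟨0, g.z⟩ = g from W.ext (by simp) (by simp)] at h1
    rw [show (⟨-g.f, 0⟩ : W) * g = ⟨0, g.z⟩ from W.ext (by simp) (by simp)] at h2
    exact le_antisymm h1 h2
  have k3 := convex_const (fun z => f ⟨0, z⟩) R (fun z => (abs_le.mp (hR _)).2) fun z => by
    have h0 := hf ⟨0, z⟩
    rw [k2 (_ * wt), k2 (_ * wt⁻¹), k2 (_ * wa), k2 (_ * wa⁻¹)] at h0
    simp only [mul_z, inv_z, wt, wa, neg_zero, add_zero, ← sub_eq_add_neg] at h0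
    linarith
  rw [k2 x, k2 y]
  exact (k3 _).trans (k3 _).symm

theorem result : ∃ (G : Type) (_ : Group G) (S : Finset G), (1 : G) ∉ S ∧ (∀ s ∈ S, s⁻¹ ∈ S) ∧
    Subgroup.closure (S : Set G) = ⊤ ∧ Liouville S ∧ ¬ AR G := by
  classical
  have e1 : wa ≠ wa⁻¹ := fun h => by
    have := congrArg (fun g : W => eval₂ (Int.castRingHom ℝ) 1 g.f) h
    norm_num [wa] at this
  have e2 : wa ≠ 1 := fun h => by simpa [wa] using congrArg W.f h
  have e3 : ∀ x y : W, x.z ≠ y.z → x ≠ y := fun x y h e => h (e ▸ rfl)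
  have n1 : wt ∉ ({wt⁻¹, wa, wa⁻¹} : Finset W) := by
    simp only [mem_insert, mem_singleton, not_or]
    exact ⟨e3 _ _ (by simp [wt]), e3 _ _ (by simp [wt, wa]), e3 _ _ (by simp [wt, wa])⟩
  have n2 : wt⁻¹ ∉ ({wa, wa⁻¹} : Finset W) := by
    simp only [mem_insert, mem_singleton, not_or]
    exact ⟨e3 _ _ (by simp [wt, wa]), e3 _ _ (by simp [wt, wa])⟩
  refine ⟨W, inferInstance, {wt, wt⁻¹, wa, wa⁻¹}, ?_, ?_, ?_, ?_, fun h => ?_⟩
  · simp only [mem_insert, mem_singleton, not_or]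
    exact ⟨e3 _ _ (by simp [wt]), e3 _ _ (by simp [wt]), e2.symm, fun h => e2 (inv_eq_one.mp h.symm)⟩
  · simp
  · exact gen_W _ (Subgroup.subset_closure (by simp)) (Subgroup.subset_closure (by simp))
  · rintro f ⟨R, hR⟩ hf
    refine liou f R hR fun g => ?_
    rw [hf g, sum_insert n1, sum_insert n2, sum_pair e1, card_insert_of_notMem n1,
      card_insert_of_notMem n2, card_pair e1]
    push_cast
    ring
  · letI : MeasurableSpace W := ⊤
    refine notARW psb (MonoidHom.id _) (fun _ => rfl) (h _ (tw.symm psb psb_not) ?_ 1 le_rfl)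
    rw [Tail.supp]
    exact gen_W _ (Subgroup.subset_closure ⟨(0, true), by simp [psb, psi]⟩)
      (Subgroup.subset_closure ⟨(1, true), by simp [psb, psi]⟩)

end Pool.Agent.Results.MP_646863_pr.LiouvilleNotAR
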